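import Pool.Agent.Y645.UP.Stm
import Pool.Agent.Y79.UL.TD
import Pool.Agent.Y688.UL.B

/-!
Project UP, job UP-B (helper564): from the small to the big base field.
Adapted from `Pool/Agent/Y79/UM/B.lean` (helper79).
-/

set_option autoImplicit false

namespace Pool.Agent.Y564.UP

open MvPolynomial Module Pool.Agent.Y645.UL Pool.Agent.Y645.UM Pool.Agent.Y645.UP Algebra

section td

variable {k₀ k L J : Type} [Field k₀] [Field k] [Field L] [Algebra k₀ k]
  [Algebra k L] [Algebra k₀ L] [IsScalarTower k₀ k L] [Fintype J]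

/-- the enlarged point -/
def enl {κ : Type} (x : J → L) (c : κ → k) : J ⊕ κ → L :=
  Sum.elim x (fun i => algebraMap k L (c i))

theorem td2 (x : J → L) (κ : Type) [Fintype κ] (c : κ → k) :
    td k₀ c + td k x ≤ td k₀ (enl x c) := by
  obtain ⟨D, hD1, hD2, -⟩ := exists_basis (k := k₀) c
  obtain ⟨B, hB1, hB2, -⟩ := exists_basis (k := k) x
  have h := hD2.sumElim_comp hB2
  have h1 := card_le_td (k := k₀) (x := enl x c) h (by
      rintro (⟨b, hb⟩ | d)
      · exact alg_self ⟨Sum.inl b, rfl⟩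
      · exact alg_self ⟨Sum.inr d, rfl⟩)
  rw [Fintype.card_sum, Fintype.card_coe, Fintype.card_coe, hB1, hD1] at h1
  rw [add_comm]
  exact h1

theorem td1 (hCOEF : S_COEF) (x : J → L) : ∃ (κ : Type) (_ : Fintype κ) (c : κ → k),
    td k₀ (enl x c) ≤ td k₀ c + td k x := by
  classical
  obtain ⟨B, hB1, hB2, hB3⟩ := exists_basis (k := k) x
  choose C hC0 hC using fun j => hCOEF k₀ k L (x '' (B : Set J)) (x j) (hB3 j)
  obtain ⟨U, hU⟩ : ∃ U : Finset k, U = Finset.univ.biUnion C := ⟨_, rfl⟩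
  have hCU : ∀ j, ∀ u ∈ C j, u ∈ U := by
    intro j u hu
    rw [hU, Finset.mem_biUnion]
    exact ⟨j, Finset.mem_univ _, hu⟩
  obtain ⟨c, hc⟩ : ∃ c : U → k, ∀ u, c u = u := ⟨fun u => (u : k), fun _ => rfl⟩
  refine ⟨U, inferInstance, c, ?_⟩
  obtain ⟨D, hD1, hD2, hD3⟩ := exists_basis (k := k₀) c
  obtain ⟨y, hy⟩ : ∃ y : B ⊕ D → L, y = Sum.elim (fun b : B => x b)
    (fun d : D => algebraMap k L (c d)) := ⟨_, rfl⟩
  have hc1 : ∀ u : U, IsAlgebraic (adjoin k₀ (Set.range y)) (algebraMap k L (c u)) := by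
    intro u
    refine alg_mono ?_ (Pool.Agent.Y79.UL.alg_map (L := L) (hD3 u))
    rintro _ ⟨_, ⟨d, hd, rfl⟩, rfl⟩
    exact ⟨Sum.inr ⟨d, hd⟩, by rw [hy]; rfl⟩
  have hc2 : ∀ j, IsAlgebraic (adjoin k₀ (Set.range y)) (x j) := by
    intro j
    refine alg_trans ?_ (hC j)
    rintro _ (⟨b, hb, rfl⟩ | ⟨u, hu, rfl⟩)
    · exact alg_self ⟨Sum.inl ⟨b, hb⟩, by rw [hy]; rfl⟩
    · have := hc1 ⟨u, hCU j u hu⟩
      rw [hc] at this
      exact this
  have halg : ∀ j, IsAlgebraic (adjoin k₀ (Set.range y)) (enl x c j) := by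
    rintro (j | u)
    · exact hc2 j
    · exact hc1 u
  have h1 := td_le_of_alg (k := k₀) halg
  have h2 := td_le_card (k := k₀) y
  rw [Fintype.card_sum, Fintype.card_coe, Fintype.card_coe, hB1, hD1] at h2
  rw [add_comm]
  exact h1.trans h2

end td

/-- the number of classes for a general relation -/
noncomputable def isoG {L J : Type} (R : L → L → Prop) (S : L → Prop) (x : J → L) : ℕ :=
  Nat.card (Quot (fun i j : {i : J // ¬ S (x i)} => R (x i) (x j)))

section tower

variable {k₀ k L J κ : Type} [Field k₀] [Field k] [Field L] [Algebra k₀ k] [Algebra k L]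
  [Algebra k₀ L] [IsScalarTower k₀ k L]

theorem rel_map (D : Data k₀) : Rel (D.map k) (L := L) = Rel D := by
  funext a b
  apply propext
  unfold Pool.Agent.Y645.UM.Rel Data.map
  simp only [aeval_map_algebraMap]

theorem spec_map (D : Data k₀) : SpecAt (D.map k) (L := L) = SpecAt D := by
  funext a
  apply propext
  constructor
  · rintro ⟨_, ⟨c, hc, rfl⟩, h⟩
    exact ⟨c, hc, by rw [h, ← IsScalarTower.algebraMap_apply]⟩
  · rintro ⟨c, hc, h⟩
    exact ⟨_, ⟨c, hc, rfl⟩, by rw [h, ← IsScalarTower.algebraMap_apply]⟩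

theorem isoRk_map (D : Data k₀) (x : J → L) : isoRk (D.map k) x = isoRk D x := by
  change isoG (Rel (D.map k)) (SpecAt (D.map k)) x = isoG (Rel D) (SpecAt D) x
  rw [rel_map, spec_map]

/-- substitution of the constants -/
noncomputable def sbs (J : Type) (c : κ → k) (f : MvPolynomial (J ⊕ κ) k₀) :
    MvPolynomial J k :=
  aeval (Sum.elim (fun j => X j) (fun i => C (c i))) f

theorem aeval_enl (x : J → L) (c : κ → k) (f : MvPolynomial (J ⊕ κ) k₀) :
    aeval (enl x c) f = aeval x (sbs J c f) := by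
  have h : ((aeval x : MvPolynomial J k →ₐ[k] L).restrictScalars k₀).comp
      (aeval (Sum.elim (fun j => X j) (fun i => C (c i))) :
        MvPolynomial (J ⊕ κ) k₀ →ₐ[k₀] _) =
      aeval (enl x c) := by
    apply MvPolynomial.algHom_ext
    rintro (j | j)
    · simp [enl]
    · simp [enl]
  exact (DFunLike.congr_fun h f).symm

end tower

theorem t_Bp (hINC : Pool.Agent.Y645.UP.S_INC) (hCOEF : Pool.Agent.Y645.UL.S_COEF) :
    Pool.Agent.Y645.UP.S_Bp := by
  intro k₀ k _ _ _ D hD hPP J _ L _ _ x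
  let _ : Algebra k₀ L := ((algebraMap k L).comp (algebraMap k₀ k)).toAlgebra
  have _ : IsScalarTower k₀ k L := IsScalarTower.of_algebraMap_eq' rfl
  obtain ⟨κ, _, c, hc⟩ := td1 (k₀ := k₀) (k := k) hCOEF x
  obtain ⟨g₀, hg₀, hg⟩ := hPP (J ⊕ κ) L (enl x c)
  refine ⟨sbs J c g₀, ?_, ?_⟩
  · rw [← aeval_enl]
    exact hg₀
  · intro L' _ _ x' hs hlt
    let _ : Algebra k₀ L' := ((algebraMap k L').comp (algebraMap k₀ k)).toAlgebra
    have _ : IsScalarTower k₀ k L' := IsScalarTower.of_algebraMap_eq' rfl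
    have hs' : Spp k₀ (enl x c) (enl x' c) := by
      intro f hf
      rw [aeval_enl] at hf ⊢
      exact hs _ hf
    have hc2 := td2 (k₀ := k₀) (k := k) x' κ c
    have h3 := hINC k₀ L L' (J ⊕ κ) J D hD (enl x c) (enl x' c) Sum.inl hs'
    have e1 : enl x c ∘ Sum.inl = x := rfl
    have e2 : enl x' c ∘ Sum.inl = x' := rfl
    rw [e1, e2] at h3
    have r1 : isoRk (D.map k) x = isoRk D x := isoRk_map D x
    have r2 : isoRk (D.map k) x' = isoRk D x' := isoRk_map D x'
    rw [r1, r2] at hlt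
    have h4 := hg L' (enl x' c) hs' (by omega)
    rw [aeval_enl] at h4
    exact h4

end Pool.Agent.Y564.UP
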